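import Pool.Agent.N726.SFP.Main

/-!
There are infinitely many `n ≥ 3` such that `n - 2 ^ k` is squarefree for every `k ≥ 1` with
`2 ^ k < n`.
-/

namespace Pool.Agent.Results.MP_fcd74d_nt.GoodIntegersInfinite

theorem result :
    {n : ℕ | 3 ≤ n ∧ ∀ k : ℕ, 1 ≤ k → 2 ^ k < n → Squarefree (n - 2 ^ k)}.Infinite :=
  Pool.Agent.N726.SFP.infinite

end Pool.Agent.Results.MP_fcd74d_nt.GoodIntegersInfinite
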